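import Pool.Agent.W619.Y.Stm9
import Pool.Agent.W125.PG.FibJ

/-! Sections of `m (K + B) + j A` restricted to the generic curve `F` over `M`
(part FIBJB). -/

set_option autoImplicit false
set_option linter.overlappingInstances false
set_option linter.unusedSectionVars false

universe u v

open Polynomial FF IntermediateField Pool.Agent.W619.PQ Pool.Agent.W619.PL Pool.Agent.W619.TW
  Pool.Agent.W603.LV Pool.Agent.W479.PG

namespace Pool.Agent.W511.PG.FIBJB

section

variable {k : Type v} {L : Type u} [Field k] [Field L] [Algebra k L] [CharZero k] [IsAlgClosed k]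
  {M F : IntermediateField k L}

/-- A place of `L` over `M` is not over a place of `M`. -/
theorem not_over_M (w : Place M L) (u : Place k M) (e : ℕ) (h : Over (rk w) u e) : False := by
  obtain ⟨t, _, ht⟩ := u.surj
  have h1 := h.2 t
  rw [ht, mul_one] at h1
  have h2 : w.ord ((t : M) : L) = 0 := ord_M w t.2
  change w.ord ((t : M) : L) = _ at h1
  rw [h2] at h1
  have := h.1
  omega

/-- The boundary at a place which is trivial on `F`. -/
theorem not_bd_triv (BY : Place k M → Prop) (BF : Place k F → Prop) (w : Place M L)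
    (hw : ∀ β : F, w.ord (β : L) = 0) : ¬ Pool.Agent.W619.Y.BdTwo M F BY BF (rk w) := by
  rintro (⟨u, e, h, -⟩ | ⟨p, e, h, -⟩)
  · exact not_over_M w u e h
  · obtain ⟨t, _, ht⟩ := p.surj
    have h1 := h.2 t
    rw [ht, mul_one] at h1
    change w.ord ((t : F) : L) = _ at h1
    rw [hw] at h1
    have := h.1
    omega

/-- The boundary at a place over a place of `F`. -/
theorem bd_over (BY : Place k M → Prop) (BF : Place k F → Prop) (w : Place M L) (q : Place k F)
    (hq : ∀ β : F, w.ord (β : L) = q.ord β) :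
    Pool.Agent.W619.Y.BdTwo M F BY BF (rk w) ↔ BF q := by
  have hov : Over (rk w) q 1 := ⟨one_pos, fun f => by
    change w.ord ((f : F) : L) = _
    rw [hq]; simp⟩
  constructor
  · rintro (⟨u, e, h, -⟩ | ⟨p, e, h, hB⟩)
    · exact (not_over_M w u e h).elim
    · rw [(over_unique' hov h).1]; exact hB
  · intro h
    exact Or.inr ⟨q, 1, hov, h⟩

section

variable [IsFF k F] {d : ℕ} {y : Fin d → M} {E : Fin (d + 1) → Derivation k L L}
  {δ : Derivation k F F} {dM : Fin d → Derivation k M M}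

/-- The local bound. -/
theorem local1JB (h : Cur M F) (hy : AlgebraicIndependent k y)
    (hEM : ∀ l (z : M), E (Fin.succ l) (z : L) = (dM l z : L))
    (hEF : ∀ l : Fin d, ∀ β : F, E l.succ (β : L) = 0) (hE0 : ∀ μ : M, E 0 (μ : L) = 0)
    (hEδ : ∀ β : F, E 0 (β : L) = (δ β : L)) (hδ : δ ≠ 0)
    {BY : Place k M → Prop} {BF : Place k F → Prop} {S : Finset L} {m j : ℕ}
    {ω : (Fin (d + 1) → Derivation k L L) → L}
    (hω : IsSec k L (d + 1) (Pool.Agent.W619.Y.BdTwo M F BY BF) S m j ω)
    (w : Place M L) (c : ℤ)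
    (hc : ((∀ β : F, w.ord (β : L) = 0) ∧ c = 0) ∨
      ∃ q : Place k F, (∀ β : F, w.ord (β : L) = q.ord β) ∧
        ((¬ BF q ∧ c = vo q δ) ∨ (BF q ∧ c = vo q δ - 1))) :
    ω E = 0 ∨ ∃ s ∈ S, s ≠ 0 ∧ m * c + j * w.ord s ≤ w.ord (ω E) := by
  classical
  have hdiv := divisorial1 hy w
  rcases hc with ⟨htriv, rfl⟩ | ⟨q, hq, hc⟩
  · have hall : ∀ l, Pres (rk w) (E l) := by
      intro l
      refine Fin.cases ?_ (fun l => ?_) l
      · exact pres_zero_triv h hE0 hEδ w htriv
      · exact pres_succ h hEM hEF w l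
    rcases hω.2.1 (rk w) hdiv (not_bd_triv BY BF w htriv) E hall with h1 | ⟨s, hs, hs0, h1⟩
    · exact Or.inl h1
    · refine Or.inr ⟨s, hs, hs0, ?_⟩
      change (j : ℤ) * w.ord s ≤ w.ord (ω E) at h1
      rw [mul_zero, zero_add]; exact h1
  · obtain ⟨t, ht0, ht⟩ := q.surj
    have hDt := der_pi_ne_zero hδ q ht
    have hDt' : ((δ t : F) : L) ≠ 0 := fun h => hDt (Subtype.ext h)
    have hvo : w.ord ((δ t : F) : L) = vo q δ := by
      rw [hq]; exact vo_eq q ht hδ
    have htL : ((t : F) : L) ≠ 0 := fun h => ht0 (Subtype.ext h)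
    have hwt : w.ord ((t : F) : L) = 1 := by rw [hq, ht]
    by_cases h0 : ω E = 0
    · exact Or.inl h0
    right
    rcases hc with ⟨hB, rfl⟩ | ⟨hB, rfl⟩
    · have hall : ∀ l, Pres (rk w)
          ((fun l => if l = 0 then ((δ t : F) : L)⁻¹ • E l else E l) l) := by
        intro l
        refine Fin.cases ?_ (fun l => ?_) l
        · simp only [if_true]
          exact pres_zero_over h hE0 hEδ hδ w q hq ht
        · simp only [if_neg (Fin.succ_ne_zero l)]
          exact pres_succ h hEM hEF w l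
      have hnb : ¬ Pool.Agent.W619.Y.BdTwo M F BY BF (rk w) := by
        rw [bd_over BY BF w q hq]; exact hB
      have h1 := hω.2.1 (rk w) hdiv hnb _ hall
      rw [pluri_scaled hω.1 E 0 (((δ t : F) : L)⁻¹)] at h1
      rcases h1 with h1 | ⟨s, hs, hs0, h1⟩
      · exact absurd h1 (mul_ne_zero (pow_ne_zero _ (inv_ne_zero hDt')) h0)
      refine ⟨s, hs, hs0, ?_⟩
      change (j : ℤ) * w.ord s ≤ w.ord (((δ t : F) : L)⁻¹ ^ m * ω E) at h1
      rw [w.ord_mul (pow_ne_zero _ (inv_ne_zero hDt')) h0, w.ord_pow,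
        w.ord_inv, hvo] at h1
      linarith
    · have hg0 : ((t : F) : L) * ((δ t : F) : L)⁻¹ ≠ 0 := mul_ne_zero htL (inv_ne_zero hDt')
      have hall : ∀ l, ∀ f, (rk w).Reg
          ((fun l => if l = 0 then (((t : F) : L) * ((δ t : F) : L)⁻¹) • E l else E l) l f / f) := by
        intro l f
        have htrk : (rk w).ord ((t : F) : L) = 1 := hwt
        refine Fin.cases ?_ (fun l => ?_) l
        · simp only [if_true]
          refine log_of_pres (rk w) ((((t : F) : L) * ((δ t : F) : L)⁻¹) • E 0) ?_ htL htrk ?_ f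
          · intro z hz
            have h2 : Ge w 0 ((((δ t : F) : L)⁻¹ • E 0) z) :=
              pres_zero_over h hE0 hEδ hδ w q hq ht z hz
            have h3 : Ge w 0 ((t : F) : L) := Or.inr (by rw [hwt]; norm_num)
            have h4 := h3.mul h2
            rw [add_zero] at h4
            have h5 : ((((t : F) : L) * ((δ t : F) : L)⁻¹) • E 0) z =
                ((t : F) : L) * ((((δ t : F) : L)⁻¹ • E 0) z) := by
              rw [Derivation.coe_smul, Pi.smul_apply, Derivation.coe_smul, Pi.smul_apply,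
                smul_eq_mul, smul_eq_mul, mul_assoc]
            rw [h5]
            exact h4
          · rw [Derivation.coe_smul, Pi.smul_apply, hEδ, smul_eq_mul,
              inv_mul_cancel_right₀ hDt', div_self htL]
            exact w.reg_one
        · simp only [if_neg (Fin.succ_ne_zero l)]
          refine log_of_pres (rk w) (E l.succ) (pres_succ h hEM hEF w l) htL htrk ?_ f
          rw [hEF, zero_div]
          exact w.reg_zero
      have hb : Pool.Agent.W619.Y.BdTwo M F BY BF (rk w) := (bd_over BY BF w q hq).2 hB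
      have h1 := hω.2.2 (rk w) hdiv hb _ hall
      rw [pluri_scaled hω.1 E 0 (((t : F) : L) * ((δ t : F) : L)⁻¹)] at h1
      rcases h1 with h1 | ⟨s, hs, hs0, h1⟩
      · exact absurd h1 (mul_ne_zero (pow_ne_zero _ hg0) h0)
      refine ⟨s, hs, hs0, ?_⟩
      change (j : ℤ) * w.ord s ≤ w.ord ((((t : F) : L) * ((δ t : F) : L)⁻¹) ^ m * ω E) at h1
      rw [w.ord_mul (pow_ne_zero _ hg0) h0, w.ord_pow, w.ord_mul htL (inv_ne_zero hDt'),
        w.ord_inv, hvo, hwt] at h1
      linarith

end

end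

/-- The boundary divisor on the curve. -/
theorem exists_B {k : Type v} {K : Type u} [Field k] [Field K] [Algebra k K] [CharZero k]
    [IsAlgClosed k] [IsFF k K] (BF : Place k K → Prop) (hfin : {p | BF p}.Finite) :
    ∃ B : Place k K →₀ ℤ, (∀ q, (BF q → B q = 1) ∧ (¬ BF q → B q = 0)) ∧
      ddeg B = {p | BF p}.ncard := by
  classical
  let B : Place k K →₀ ℤ := Finsupp.ofSupportFinite (fun q => if BF q then 1 else 0)
    (hfin.subset fun q hq => by
      by_contra h
      have h' : ¬ BF q := h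
      rw [Function.mem_support, if_neg h'] at hq
      exact hq rfl)
  have hB : ∀ q, B q = if BF q then 1 else 0 := fun q => rfl
  refine ⟨B, fun q => ⟨fun h => by rw [hB, if_pos h], fun h => by rw [hB, if_neg h]⟩, ?_⟩
  unfold ddeg
  rw [Finsupp.sum_of_support_subset (s := hfin.toFinset) _ (fun q hq => by
    rw [hfin.mem_toFinset]
    by_contra h
    have h' : ¬ BF q := h
    rw [Finsupp.mem_support_iff, hB, if_neg h'] at hq
    exact hq rfl) _ (by intros; simp)]
  have h1 : ∀ q ∈ hfin.toFinset, B q * (q.deg : ℤ) = 1 := by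
    intro q hq
    have : BF q := (hfin.mem_toFinset).1 hq
    rw [deg_one, hB, if_pos this]; simp
  rw [Finset.sum_congr rfl h1, Finset.sum_const, nsmul_eq_mul, mul_one,
    Set.ncard_eq_toFinset_card _ hfin]

theorem main : Pool.Agent.W619.Y.S_FIBJB.{u, v} := by
  intro k L _ _ _ _ _ M F _ d BY BF hM hL hsup hfin y hy t ht E hE0 hEt hEF hEy S
  classical
  have hcur : Cur M F := cur_of hM hL hsup
  -- the derivation of `F`
  obtain ⟨δ, hδ, hδt⟩ := exists_ddx ht
  have hEδ : ∀ β : F, E 0 (β : L) = (δ β : L) := by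
    intro β
    obtain ⟨r, hr1, hr2⟩ := ratio' (K := L) ht β
    have h1 := hr1 δ
    rw [hδt, mul_one] at h1
    have h2 := hr2 (E 0)
    change E 0 (β : L) = (r : L) * E 0 (t : L) at h2
    rw [hEt, mul_one] at h2
    rw [h2, h1]
  -- the derivations of `M`
  choose dM hdM using fun l => exists_dual y hy l
  have hEM : ∀ l (z : M), E (Fin.succ l) (z : L) = (dM l z : L) := by
    intro l z
    refine der_comp (dM l) (E l.succ) y hy (fun j => ?_) z
    change E l.succ (y j : L) = ((dM l (y j) : M) : L)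
    rw [hEy, hdM]
    by_cases h : j = l
    · subst h; simp
    · rw [if_neg h, if_neg (fun h' => h h'.symm)]; simp
  obtain ⟨b0, -, hb0, hbS⟩ := exists_den1 hcur S
  obtain ⟨C, hC, hCdeg⟩ := exists_C1 hδ
  obtain ⟨B, hB, hBdeg⟩ := exists_B BF hfin
  have hA : ∀ s : L, ∃ A : Place k F →₀ ℤ, 0 ≤ A ∧ (s ∈ S → ∀ (w : Place M L)
      (q : Place k F), (∀ β : F, w.ord (β : L) = q.ord β) → Ge w (-A q) (b0 * s)) := by
    intro s
    by_cases hs : s ∈ S
    · obtain ⟨A, hA, h⟩ := (bound_RR (hbS s hs)).2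
      exact ⟨A, hA, fun _ => h⟩
    · exact ⟨0, le_rfl, fun h => absurd h hs⟩
  choose A hA0 hA using hA
  refine ⟨b0, (ddeg (∑ s ∈ S, A s)).toNat, hb0, fun m j => ?_⟩
  set D : Place k F →₀ ℤ := m • (C + B) + j • ∑ s ∈ S, A s with hD
  refine ⟨LL D, inferInstance, ?_, fun ω hω => ?_⟩
  · have h1 := finrank_LL_le D
    have h2 : ddeg D = m * (canDeg k F + {p | BF p}.ncard) + j * ddeg (∑ s ∈ S, A s) := by
      rw [hD, ddeg_add, ddeg_nsmul, ddeg_nsmul, ddeg_add, hCdeg, hBdeg]
    rw [h2] at h1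
    have h3 : (j : ℤ) * ddeg (∑ s ∈ S, A s) ≤ j * (ddeg (∑ s ∈ S, A s)).toNat :=
      mul_le_mul_of_nonneg_left (Int.self_le_toNat _) (by positivity)
    generalize (m : ℤ) * (canDeg k F + {p | BF p}.ncard) = X at h1 ⊢
    generalize (j : ℤ) * ddeg (∑ s ∈ S, A s) = Y at h1 h3
    generalize (j : ℤ) * ((ddeg (∑ s ∈ S, A s)).toNat : ℤ) = Z at h3 ⊢
    omega
  · have hloc : ∀ (w : Place M L) (c : ℤ) (N : ℤ),
        (((∀ β : F, w.ord (β : L) = 0) ∧ c = 0) ∨
        ∃ q : Place k F, (∀ β : F, w.ord (β : L) = q.ord β) ∧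
          ((¬ BF q ∧ c = vo q δ) ∨ (BF q ∧ c = vo q δ - 1))) →
        (∀ s ∈ S, s ≠ 0 → N ≤ m * c + j * w.ord (b0 * s)) → Ge w N (b0 ^ j * ω E) := by
      intro w c N hc hN
      rcases local1JB hcur hy.1 hEM hEF hE0 hEδ hδ hω w c hc with h | ⟨s, hs, hs0, h⟩
      · left; rw [h, mul_zero]
      · by_cases h0 : ω E = 0
        · left; rw [h0, mul_zero]
        right
        have h1 := hN s hs hs0
        rw [w.ord_mul hb0 hs0] at h1
        rw [w.ord_mul (pow_ne_zero _ hb0) h0, w.ord_pow]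
        linarith
    obtain ⟨s, β, hs, hβ⟩ := hcur.mem_span D (b0 ^ j * ω E)
      (fun w hw => hloc w 0 0 (Or.inl ⟨hw, rfl⟩) (by
        intro s hs hs0
        have h1 := (bound_RR (hbS s hs)).1 w hw
        have h2 := h1.resolve_left (mul_ne_zero hb0 hs0)
        have : (0 : ℤ) ≤ j * w.ord (b0 * s) := mul_nonneg (by positivity) h2
        linarith))
      (fun w q hw => by
        have hDq : D q = m * (C q + B q) + j * ∑ s ∈ S, A s q := by
          rw [hD, Finsupp.add_apply, Finsupp.smul_apply, Finsupp.smul_apply, Finsupp.add_apply,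
            Finsupp.finsetSum_apply, nsmul_eq_mul, nsmul_eq_mul]
        have hstep : ∀ c : ℤ, C q + B q = -c → ∀ s ∈ S, s ≠ 0 →
            -D q ≤ m * c + j * w.ord (b0 * s) := by
          intro c hc s hs hs0
          have h1 := hA s hs w q hw
          have h2 := h1.resolve_left (mul_ne_zero hb0 hs0)
          have h3 := Finset.single_le_sum (f := fun s => A s q) (fun s _ => hA0 s q) hs
          have h4 : -(∑ s ∈ S, A s q) ≤ w.ord (b0 * s) := by linarith
          have h5 := mul_le_mul_of_nonneg_left h4 (by positivity : (0 : ℤ) ≤ j)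
          rw [hDq, hc]
          linarith
        by_cases hBq : BF q
        · exact hloc w (vo q δ - 1) _ (Or.inr ⟨q, hw, Or.inr ⟨hBq, rfl⟩⟩)
            (hstep _ (by rw [hC, (hB q).1 hBq]; ring))
        · exact hloc w (vo q δ) _ (Or.inr ⟨q, hw, Or.inl ⟨hBq, rfl⟩⟩)
            (hstep _ (by rw [hC, (hB q).2 hBq]; ring)))
    rw [hs]
    refine Submodule.sum_mem _ fun l hl => ?_
    have h1 : ((Module.Basis.ofVectorSpace k M l : M) : L) * (β l : L) =
        (Module.Basis.ofVectorSpace k M l : M) • (β l : L) := by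
      rw [Algebra.smul_def]; rfl
    rw [h1]
    exact Submodule.smul_mem _ _ (Submodule.subset_span ⟨β l, hβ l hl, rfl⟩)

end Pool.Agent.W511.PG.FIBJB
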